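import Mathlib

set_option autoImplicit false

namespace Pool.Agent.Results.MP_506947_al.MinimalFoxDiffer

open MonoidAlgebra (single)

/-- The augmentation `ℤG → ℤ`: the ring homomorphism sending every group element to `1`. -/
noncomputable def aug (G : Type) [Group G] : MonoidAlgebra ℤ G →+* ℤ :=
  (MonoidAlgebra.lift ℤ ℤ G (1 : G →* ℤ)).toRingHom

/-- Finitely generated free chain data over `ℤG`. The module in degree `i` is the free left module
`C_i = (ℤG)^(rk i)` with its standard basis, `d i : C_{i+1} → C_i` is left `ℤG`-linear (it is the map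
`∂_{i+1}` of the text) and `d0 : C_0 → ℤ` is the map `∂_0`: it is additive and satisfies
`d0 (a • v) = aug a * d0 v`, that is, it is `ℤG`-linear for the trivial action on `ℤ`.
For a partial resolution of length `m` only the degrees `≤ m` matter. -/
structure ChainData (G : Type) [Group G] where
  rk : ℕ → ℕ
  d : (i : ℕ) → (Fin (rk (i + 1)) → MonoidAlgebra ℤ G) →ₗ[MonoidAlgebra ℤ G]
    (Fin (rk i) → MonoidAlgebra ℤ G)
  d0 : (Fin (rk 0) → MonoidAlgebra ℤ G) →ₛₗ[aug G] ℤ

/-- `cycles C i = ker ∂_i`, a submodule of `C_i`. -/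
noncomputable def cycles {G : Type} [Group G] (C : ChainData G) :
    (i : ℕ) → Submodule (MonoidAlgebra ℤ G) (Fin (C.rk i) → MonoidAlgebra ℤ G)
  | 0 => LinearMap.ker C.d0
  | i + 1 => LinearMap.ker (C.d i)

/-- `C` is (through degree `m`) a partial resolution of length `m`:
`C_m → ⋯ → C_0 → ℤ → 0` is exact at `C_0, …, C_{m-1}` and at `ℤ`. -/
structure IsPartialResolution {G : Type} [Group G] (C : ChainData G) (m : ℕ) : Prop where
  surj : Function.Surjective C.d0
  exact : ∀ i, i < m → LinearMap.range (C.d i) = cycles C i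

/-- The directed Euler characteristic `(-1)^m χ(C) = ∑_{i ≤ m} (-1)^(i+m) rk C_i`. -/
def dirEuler {G : Type} [Group G] (C : ChainData G) (m : ℕ) : ℤ :=
  ∑ i ∈ Finset.range (m + 1), (-1) ^ (i + m) * (C.rk i : ℤ)

/-- The `m`-th Fox ideal: the two-sided ideal of `ℤG` generated by all coordinates of all
elements of `ker ∂_m`. -/
noncomputable def foxIdeal {G : Type} [Group G] (C : ChainData G) (m : ℕ) :
    TwoSidedIdeal (MonoidAlgebra ℤ G) :=
  TwoSidedIdeal.span {a | ∃ v ∈ cycles C m, ∃ j, v j = a}

/-- `C` is a minimal partial resolution of length `m`: its directed Euler characteristic is the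
minimum `χ_m(G)` over all partial resolutions of length `m` of `G`. -/
def IsMinimal {G : Type} [Group G] (C : ChainData G) (m : ℕ) : Prop :=
  IsPartialResolution C m ∧
    ∀ D : ChainData G, IsPartialResolution D m → dirEuler C m ≤ dirEuler D m

/-! ### Partial resolutions of length one from generating tuples -/

section gen

variable {G : Type} [Group G]

lemma aug_single (g : G) (k : ℤ) : aug G (single g k) = k := by
  simp [aug, MonoidAlgebra.lift_single]

/-- the map `v ↦ ∑ v_j (x_j - 1)` -/
noncomputable def genMap {n : ℕ} (x : Fin n → G) :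
    (Fin n → MonoidAlgebra ℤ G) →ₗ[MonoidAlgebra ℤ G] MonoidAlgebra ℤ G where
  toFun v := ∑ j, v j * (single (x j) 1 - 1)
  map_add' v w := by simp [add_mul, Finset.sum_add_distrib]
  map_smul' a v := by simp [mul_assoc, Finset.mul_sum]

noncomputable def augMap (G : Type) [Group G] : (Fin 1 → MonoidAlgebra ℤ G) →ₛₗ[aug G] ℤ where
  toFun v := aug G (v 0)
  map_add' v w := by simp
  map_smul' a v := by simp

/-- The chain data attached to a tuple of group elements. -/
noncomputable def genData {n : ℕ} (x : Fin n → G) : ChainData G where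
  rk := fun i => match i with
    | 0 => 1
    | 1 => n
    | _ => 0
  d := fun i => match i with
    | 0 => LinearMap.pi (fun _ : Fin 1 => genMap x)
    | _ + 1 => 0
  d0 := augMap G

lemma mem_range_genMap {n : ℕ} (x : Fin n → G) (hx : Subgroup.closure (Set.range x) = ⊤) (g : G) :
    (single g 1 - 1 : MonoidAlgebra ℤ G) ∈ LinearMap.range (genMap x) := by
  have hg : g ∈ Subgroup.closure (Set.range x) := by rw [hx]; trivial
  induction hg using Subgroup.closure_induction with
  | mem g hg =>
    obtain ⟨j, rfl⟩ := hg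
    refine ⟨Pi.single j 1, ?_⟩
    simp only [genMap, LinearMap.coe_mk, AddHom.coe_mk]
    rw [Finset.sum_eq_single j]
    · simp
    · intro i _ hij
      simp [Pi.single_eq_of_ne hij]
    · simp
  | one => 
    have : (single (1 : G) (1 : ℤ) - 1 : MonoidAlgebra ℤ G) = 0 := by
      rw [MonoidAlgebra.one_def]; simp
    rw [this]; exact Submodule.zero_mem _
  | mul g h _ _ hg hh =>
    have : (single (g * h) (1 : ℤ) - 1 : MonoidAlgebra ℤ G) =
        single g (1 : ℤ) • (single h (1 : ℤ) - 1) + (single g (1 : ℤ) - 1) := by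
      rw [smul_eq_mul, mul_sub, MonoidAlgebra.single_mul_single]
      simp
    rw [this]
    exact Submodule.add_mem _ (Submodule.smul_mem _ _ hh) hg
  | inv g _ hg =>
    have : (single (g⁻¹) (1 : ℤ) - 1 : MonoidAlgebra ℤ G) =
        -(single (g⁻¹) (1 : ℤ) • (single g (1 : ℤ) - 1)) := by
      rw [smul_eq_mul, mul_sub, MonoidAlgebra.single_mul_single, MonoidAlgebra.one_def]
      simp
    rw [this]
    exact Submodule.neg_mem _ (Submodule.smul_mem _ _ hg)

lemma mem_range_of_aug {n : ℕ} (x : Fin n → G) (hx : Subgroup.closure (Set.range x) = ⊤)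
    (a : MonoidAlgebra ℤ G) :
    a - single 1 (aug G a) ∈ LinearMap.range (genMap x) := by
  induction a using MonoidAlgebra.induction_linear with
  | zero => simp
  | add f g hf hg =>
    have : f + g - single 1 (aug G (f + g)) = (f - single 1 (aug G f)) + (g - single 1 (aug G g)) := by
      rw [map_add, MonoidAlgebra.single_add]; abel
    rw [this]
    exact Submodule.add_mem _ hf hg
  | single g k =>
    have : (single g k - single 1 (aug G (single g k)) : MonoidAlgebra ℤ G) =
        (single 1 k : MonoidAlgebra ℤ G) • (single g 1 - 1) := by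
      rw [aug_single, smul_eq_mul, mul_sub, MonoidAlgebra.single_mul_single]
      simp
    rw [this]
    exact Submodule.smul_mem _ _ (mem_range_genMap x hx g)

lemma genMap_aug {n : ℕ} (x : Fin n → G) (v : Fin n → MonoidAlgebra ℤ G) :
    aug G (genMap x v) = 0 := by
  simp [genMap, aug_single]

lemma genData_isPartialResolution {n : ℕ} (x : Fin n → G)
    (hx : Subgroup.closure (Set.range x) = ⊤) : IsPartialResolution (genData x) 1 := by
  constructor
  · intro k
    refine ⟨fun _ => single 1 k, ?_⟩
    change aug G (single 1 k) = k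
    exact aug_single _ _
  · intro i hi
    obtain rfl : i = 0 := by omega
    ext v
    change v ∈ LinearMap.range (LinearMap.pi (fun _ : Fin 1 => genMap x)) ↔
      aug G (v (0 : Fin 1)) = 0
    constructor
    · rintro ⟨w, rfl⟩
      exact genMap_aug x w
    · intro h
      have := mem_range_of_aug x hx (v (0 : Fin 1))
      rw [h] at this
      simp only [MonoidAlgebra.single_zero, sub_zero] at this
      obtain ⟨w, hw⟩ := this
      refine ⟨w, ?_⟩
      funext j
      have hj : j = (0 : Fin 1) := Subsingleton.elim (α := Fin 1) _ _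
      rw [hj]
      exact hw

lemma genData_mem_cycles {n : ℕ} (x : Fin n → G) (v : Fin n → MonoidAlgebra ℤ G) :
    v ∈ cycles (genData x) 1 ↔ genMap x v = 0 := by
  change (LinearMap.pi (fun _ : Fin 1 => genMap x)) v = 0 ↔ _
  constructor
  · intro h
    exact congrFun h 0
  · intro h
    funext j
    exact h

lemma genData_dirEuler {n : ℕ} (x : Fin n → G) : dirEuler (genData x) 1 = n - 1 := by
  simp [dirEuler, Finset.sum_range_succ, genData]
  ring

end gen

/-! ### The affine group over a ring and the vanishing criterion -/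

/-- The group `S^n ⋊ Sˣ`. -/
structure Aff (S : Type) [Ring S] (n : ℕ) where
  m : Fin n → S
  u : Sˣ

namespace Aff

variable {S : Type} [Ring S] {n : ℕ}

@[ext] lemma ext' {a b : Aff S n} (h : a.m = b.m) (h' : a.u = b.u) : a = b := by
  cases a; cases b; simp_all

instance : Mul (Aff S n) := ⟨fun a b => ⟨a.m + (a.u : S) • b.m, a.u * b.u⟩⟩
instance : One (Aff S n) := ⟨⟨0, 1⟩⟩
instance : Inv (Aff S n) := ⟨fun a => ⟨-(((a.u⁻¹ : Sˣ) : S) • a.m), a.u⁻¹⟩⟩

@[simp] lemma mul_m (a b : Aff S n) : (a * b).m = a.m + (a.u : S) • b.m := rfl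
@[simp] lemma mul_u (a b : Aff S n) : (a * b).u = a.u * b.u := rfl
@[simp] lemma one_m : (1 : Aff S n).m = 0 := rfl
@[simp] lemma one_u : (1 : Aff S n).u = 1 := rfl
@[simp] lemma inv_m (a : Aff S n) : (a⁻¹).m = -(((a.u⁻¹ : Sˣ) : S) • a.m) := rfl
@[simp] lemma inv_u (a : Aff S n) : (a⁻¹).u = a.u⁻¹ := rfl

instance : Group (Aff S n) := Group.ofLeftAxioms
  (by
    intro a b c
    apply ext'
    · simp [mul_smul, smul_add, add_assoc]
    · simp [mul_assoc])
  (by
    intro a
    apply ext'
    · simp
    · simp)
  (by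
    intro a
    apply ext'
    · simp
    · simp)

/-- projection to the units -/
def uHom : Aff S n →* S where
  toFun a := (a.u : S)
  map_one' := rfl
  map_mul' _ _ := rfl

/-- the translation by `m` -/
def tr (m : Fin n → S) : Aff S n := ⟨m, 1⟩

@[simp] lemma tr_m (m : Fin n → S) : (tr m).m = m := rfl
@[simp] lemma tr_u (m : Fin n → S) : (tr m).u = 1 := rfl

lemma tr_mul_tr (m m' : Fin n → S) : tr m * tr m' = tr (m + m') := by
  apply ext' <;> simp

lemma conj_tr (t : Aff S n) (m : Fin n → S) :
    t * tr m * t⁻¹ * (t⁻¹ * tr m * t) = tr (((t.u : S) + ((t.u⁻¹ : Sˣ) : S)) • m) := by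
  apply ext'
  · simp [smul_smul, add_smul]
  · simp

end Aff

section vanish

variable {G : Type} [Group G] {S : Type} [Ring S] {n : ℕ}

/-- The ring homomorphism `ℤG → S` attached to a homomorphism to the affine group. -/
noncomputable def Th (Φ : G →* Aff S n) : MonoidAlgebra ℤ G →+* S :=
  (MonoidAlgebra.lift ℤ S G (Aff.uHom.comp Φ)).toRingHom

lemma Th_single (Φ : G →* Aff S n) (g : G) (k : ℤ) : Th Φ (single g k) = k • ((Φ g).u : S) := by
  simp [Th, MonoidAlgebra.lift_single, Aff.uHom]

/-- additive extension of the translation part -/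
noncomputable def Der (Φ : G →* Aff S n) : MonoidAlgebra ℤ G →+ (Fin n → S) :=
  MonoidAlgebra.liftNC ((Int.castRingHom (Fin n → S)).toAddMonoidHom) (fun g => (Φ g).m)

lemma Der_single (Φ : G →* Aff S n) (g : G) (k : ℤ) : Der Φ (single g k) = k • (Φ g).m := by
  simp [Der, MonoidAlgebra.liftNC_single]

lemma Der_mul (Φ : G →* Aff S n) (a : MonoidAlgebra ℤ G) (g : G) :
    Der Φ (a * (single g 1 - 1)) = Th Φ a • (Φ g).m := by
  induction a using MonoidAlgebra.induction_linear with
  | zero => simp
  | add f h hf hh => rw [add_mul, map_add, hf, hh, map_add, add_smul]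
  | single h k =>
    rw [mul_sub, mul_one, MonoidAlgebra.single_mul_single, map_sub, Der_single, Der_single,
      Th_single, map_mul, Aff.mul_m, smul_add, smul_assoc, mul_one, add_sub_cancel_left]

lemma Th_eq_zero (Φ : G →* Aff S n) (x : Fin n → G) (hΦ : ∀ j, (Φ (x j)).m = Pi.single j 1)
    (v : Fin n → MonoidAlgebra ℤ G) (hv : genMap x v = 0) (j : Fin n) : Th Φ (v j) = 0 := by
  have h1 : Der Φ (genMap x v) = fun j => Th Φ (v j) := by
    simp only [genMap, LinearMap.coe_mk, AddHom.coe_mk, map_sum, Der_mul, hΦ]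
    funext i
    rw [Finset.sum_apply, Finset.sum_eq_single i]
    · simp
    · intro b _ hb
      simp [Pi.single_eq_of_ne' hb]
    · simp
  rw [hv, map_zero] at h1
  exact (congrFun h1 j).symm

lemma foxIdeal_le_ker (Φ : G →* Aff S n) (x : Fin n → G)
    (hΦ : ∀ j, (Φ (x j)).m = Pi.single j 1) :
    foxIdeal (genData x) 1 ≤ TwoSidedIdeal.ker (Th Φ) := by
  rw [foxIdeal, TwoSidedIdeal.span_le]
  rintro a ⟨v, hv, j, rfl⟩
  exact (TwoSidedIdeal.mem_ker _).2 (Th_eq_zero Φ x hΦ v ((genData_mem_cycles x v).1 hv) j)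

end vanish


/-! ### Lower bound for the directed Euler characteristic in length one -/

section lower

variable {G : Type} [Group G] {F : Type} [Field F] {n : ℕ}

/-- augmentation to a field -/
noncomputable def augF (G : Type) [Group G] (F : Type) [Field F] : MonoidAlgebra ℤ G →+* F :=
  (Int.castRingHom F).comp (aug G)

lemma augF_apply (a : MonoidAlgebra ℤ G) : augF G F a = ((aug G a : ℤ) : F) := rfl

/-- additive extension of an additive character tuple -/
noncomputable def Char (ψ : G →* Multiplicative (Fin n → F)) :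
    MonoidAlgebra ℤ G →+ (Fin n → F) :=
  MonoidAlgebra.liftNC ((Int.castRingHom (Fin n → F)).toAddMonoidHom)
    (fun g => Multiplicative.toAdd (ψ g))

lemma Char_single (ψ : G →* Multiplicative (Fin n → F)) (g : G) (k : ℤ) :
    Char ψ (single g k) = k • Multiplicative.toAdd (ψ g) := by
  simp [Char, MonoidAlgebra.liftNC_single]

lemma Char_mul (ψ : G →* Multiplicative (Fin n → F)) (a b : MonoidAlgebra ℤ G) :
    Char ψ (a * b) = aug G a • Char ψ b + aug G b • Char ψ a := by
  induction a using MonoidAlgebra.induction_linear with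
  | zero => simp
  | add f h hf hh =>
    rw [add_mul, map_add, hf, hh, map_add, add_smul, map_add, smul_add]; abel
  | single h k =>
    induction b using MonoidAlgebra.induction_linear with
    | zero => simp
    | add f h hf hh =>
      rw [mul_add, map_add, hf, hh, map_add (Char ψ), map_add (aug G), add_smul, smul_add]; abel
    | single g l =>
      rw [MonoidAlgebra.single_mul_single, Char_single, Char_single, Char_single, aug_single,
        aug_single, map_mul, toAdd_mul, smul_add, ← mul_smul, ← mul_smul, mul_comm l k]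
      abel

/-- a `ℤG`-linear lift `C_0 → ℤG` of `∂_0` -/
noncomputable def sMap (C : ChainData G) (v : Fin (C.rk 0) → MonoidAlgebra ℤ G) :
    MonoidAlgebra ℤ G :=
  ∑ j, v j * single 1 (C.d0 (Pi.single j 1))

lemma sMap_add (C : ChainData G) (v w : Fin (C.rk 0) → MonoidAlgebra ℤ G) :
    sMap C (v + w) = sMap C v + sMap C w := by
  simp [sMap, add_mul, Finset.sum_add_distrib]

lemma sMap_smul (C : ChainData G) (a : MonoidAlgebra ℤ G)
    (v : Fin (C.rk 0) → MonoidAlgebra ℤ G) :
    sMap C (a • v) = a * sMap C v := by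
  simp [sMap, mul_assoc, Finset.mul_sum]

lemma pi_decomp {k : ℕ} (v : Fin k → MonoidAlgebra ℤ G) :
    v = ∑ j, v j • (Pi.single j 1 : Fin k → MonoidAlgebra ℤ G) := by
  funext i
  rw [Finset.sum_apply, Finset.sum_eq_single i]
  · simp
  · intro b _ hb
    simp [Pi.single_eq_of_ne' hb]
  · simp

lemma d0_eq (C : ChainData G) (v : Fin (C.rk 0) → MonoidAlgebra ℤ G) :
    C.d0 v = ∑ j, aug G (v j) * C.d0 (Pi.single j 1) := by
  conv_lhs => rw [pi_decomp v, map_sum]
  refine Finset.sum_congr rfl fun j _ => ?_
  rw [LinearMap.map_smulₛₗ, smul_eq_mul]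

lemma aug_sMap (C : ChainData G) (v : Fin (C.rk 0) → MonoidAlgebra ℤ G) :
    aug G (sMap C v) = C.d0 v := by
  rw [d0_eq, sMap, map_sum]
  refine Finset.sum_congr rfl fun j _ => ?_
  rw [map_mul, aug_single]

theorem lower_bound (C : ChainData G) (hC : IsPartialResolution C 1)
    (ψ : G →* Multiplicative (Fin n → F)) (x : Fin n → G)
    (hψ : ∀ j, Multiplicative.toAdd (ψ (x j)) = Pi.single j 1) :
    (n : ℤ) - 1 ≤ dirEuler C 1 := by
  obtain ⟨p, hp⟩ := hC.surj 1
  have hex := hC.exact 0 (by norm_num)
  -- the linear map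
  let bas : Fin (C.rk 1) → (Fin (C.rk 0) → MonoidAlgebra ℤ G) := fun k => C.d 0 (Pi.single k 1)
  let L : ((Fin n → F) × (Fin (C.rk 0) → F)) →ₗ[F] ((Fin (C.rk 1) → F) × F) :=
    { toFun := fun cf => (fun k => (∑ i, cf.1 i * Char ψ (sMap C (bas k)) i) +
          ∑ j, augF G F (bas k j) * cf.2 j, ∑ j, augF G F (p j) * cf.2 j)
      map_add' := by
        intro a b
        ext k
        · simp only [Prod.fst_add, Prod.snd_add, Pi.add_apply, add_mul, mul_add,
            Finset.sum_add_distrib]
          ring
        · simp only [Prod.snd_add, Pi.add_apply, mul_add,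
            Finset.sum_add_distrib]
      map_smul' := by
        intro a b
        ext k
        · simp only [Prod.smul_fst, Prod.smul_snd, Pi.smul_apply, smul_eq_mul, RingHom.id_apply,
            mul_add, Finset.mul_sum]
          congr 1
          · refine Finset.sum_congr rfl fun j _ => ?_
            ring
          · refine Finset.sum_congr rfl fun j _ => ?_
            ring
        · simp only [Prod.smul_snd, Pi.smul_apply, smul_eq_mul, RingHom.id_apply,
            Finset.mul_sum]
          refine Finset.sum_congr rfl fun j _ => ?_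
          ring }
  have hL : Function.Injective L := by
    rw [injective_iff_map_eq_zero]
    rintro ⟨c, f⟩ h
    have h1 : ∀ k, (∑ i, c i * Char ψ (sMap C (bas k)) i) +
          ∑ j, augF G F (bas k j) * f j = 0 := fun k => congrFun (congrArg Prod.fst h) k
    have h2 : ∑ j, augF G F (p j) * f j = 0 := congrArg Prod.snd h
    -- extend to all elements of the kernel of d0
    have key : ∀ u : Fin (C.rk 0) → MonoidAlgebra ℤ G, C.d0 u = 0 →
        (∑ i, c i * Char ψ (sMap C u) i) + ∑ j, augF G F (u j) * f j = 0 := by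
      intro u hu
      have hu' : u ∈ LinearMap.range (C.d 0) := by
        rw [hex]; exact hu
      obtain ⟨w, rfl⟩ := hu'
      have hw : C.d 0 w = ∑ k, w k • bas k := by
        conv_lhs => rw [pi_decomp w, map_sum]
        refine Finset.sum_congr rfl fun j _ => ?_
        rw [LinearMap.map_smul]
      rw [hw]
      clear hu hw
      have hb : ∀ k, C.d0 (bas k) = 0 := by
        intro k
        have : bas k ∈ LinearMap.range (C.d 0) := ⟨_, rfl⟩
        rw [hex] at this
        exact this
      have hgen : ∀ s : Finset (Fin (C.rk 1)),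
          (∑ i, c i * Char ψ (sMap C (∑ k ∈ s, w k • bas k)) i) +
            ∑ j, augF G F ((∑ k ∈ s, w k • bas k) j) * f j = 0 := by
        intro s
        induction s using Finset.induction_on with
        | empty => simp [sMap]
        | insert k s hk ih =>
          rw [Finset.sum_insert hk, sMap_add, sMap_smul, map_add, Char_mul, aug_sMap, hb k]
          simp only [zero_smul, add_zero, Pi.add_apply, Pi.smul_apply, map_add, smul_eq_mul,
            map_mul, mul_add, add_mul, Finset.sum_add_distrib, zsmul_eq_mul] at ih ⊢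
          have e1 : ∑ i, c i * ((aug G (w k) : F) * Char ψ (sMap C (bas k)) i) +
              ∑ j, augF G F (w k) * augF G F (bas k j) * f j = 0 := by
            have := h1 k
            have h3 := congrArg (fun t => (aug G (w k) : F) * t) this
            simp only [mul_zero, mul_add, Finset.mul_sum] at h3
            rw [← h3]
            congr 1
            · refine Finset.sum_congr rfl fun j _ => ?_
              ring
            · refine Finset.sum_congr rfl fun j _ => ?_
              rw [augF_apply (F := F) (w k)]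
              ring
          linear_combination e1 + ih
      exact hgen Finset.univ
    have hc : c = 0 := by
      funext j
      have := key ((single (x j) 1 - 1 : MonoidAlgebra ℤ G) • p) (by
        rw [LinearMap.map_smulₛₗ, map_sub, aug_single]; simp)
      rw [sMap_smul, Char_mul, aug_sMap, hp] at this
      simp only [map_sub, aug_single, map_one, sub_self, zero_smul, zero_add, one_smul] at this
      have h5 : Char ψ (1 : MonoidAlgebra ℤ G) = 0 := by
        rw [MonoidAlgebra.one_def, Char_single]; simp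
      rw [Char_single, h5, sub_zero, one_smul, hψ] at this
      have h6 : ∑ i, augF G F (((single (x j) 1 - 1 : MonoidAlgebra ℤ G) • p) i) * f i = 0 := by
        refine Finset.sum_eq_zero fun i _ => ?_
        simp [augF_apply, aug_single]
      rw [h6, add_zero, Finset.sum_eq_single j] at this
      · simpa using this
      · intro b _ hb
        simp [Pi.single_eq_of_ne hb]
      · simp
    have hf : f = 0 := by
      funext j
      -- use u = e_j - d0(e_j) p
      have hk := key (Pi.single j 1 - (single 1 (C.d0 (Pi.single j 1)) : MonoidAlgebra ℤ G) • p) (by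
        rw [map_sub, LinearMap.map_smulₛₗ, aug_single, hp]; simp)
      rw [hc] at hk
      simp only [Pi.zero_apply, zero_mul, Finset.sum_const_zero, zero_add, Pi.sub_apply, map_sub,
        sub_mul, Finset.sum_sub_distrib, Pi.smul_apply, smul_eq_mul, map_mul] at hk
      have h7 : ∑ i, augF G F (single 1 (C.d0 (Pi.single j 1))) * augF G F (p i) * f i = 0 := by
        have h3 := congrArg (fun t => augF G F (single 1 (C.d0 (Pi.single j 1))) * t) h2
        simp only [mul_zero, Finset.mul_sum] at h3
        rw [← h3]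
        refine Finset.sum_congr rfl fun j _ => ?_
        ring
      rw [h7, sub_zero, Finset.sum_eq_single j] at hk
      · simpa using hk
      · intro b _ hb
        simp [Pi.single_eq_of_ne hb]
      · simp
    rw [hc, hf]; rfl
  have hdim := LinearMap.finrank_le_finrank_of_injective hL
  simp only [Module.finrank_prod, Module.finrank_fin_fun, Module.finrank_self] at hdim
  have : dirEuler C 1 = (C.rk 1 : ℤ) - C.rk 0 := by
    simp [dirEuler, Finset.sum_range_succ]
    ring
  rw [this]
  have : (n : ℤ) + C.rk 0 ≤ C.rk 1 + 1 := by exact_mod_cast hdim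
  linarith

end lower

/-! ### A matrix ring that is not Dedekind finite -/

section ring

/-- The endomorphism ring of the abelian group of functions `ℕ → ℤ`. -/
abbrev S0 : Type := Module.End ℤ (ℕ → ℤ)

/-- the left shift -/
def al : S0 where
  toFun f := fun n => f (n + 1)
  map_add' _ _ := rfl
  map_smul' _ _ := rfl

/-- the right shift -/
def be : S0 where
  toFun f := fun n => match n with
    | 0 => 0
    | n + 1 => f n
  map_add' f g := by
    funext n
    cases n <;> simp
  map_smul' k f := by
    funext n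
    cases n <;> simp

lemma al_be : al * be = 1 := by
  apply LinearMap.ext
  intro f
  funext n
  rfl

lemma be_al : be * al ≠ 1 := by
  intro h
  have h4 := congrFun (LinearMap.congr_fun h (fun _ => (1 : ℤ))) 0
  have h5 : (be * al) (fun _ => (1 : ℤ)) 0 = 0 := rfl
  rw [h5] at h4
  simp at h4

abbrev R0 : Type := Matrix (Fin 2) (Fin 2) S0

/-- an invertible matrix with `U a + (U a)⁻¹ = diag(a, a)` -/
def U (a : S0) : R0ˣ where
  val := !![a, 1; -1, 0]
  inv := !![0, -1; 1, a]
  val_inv := by
    rw [Matrix.mul_fin_two]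
    simp [Matrix.one_fin_two]
  inv_val := by
    rw [Matrix.mul_fin_two]
    simp [Matrix.one_fin_two]

lemma U_add (a : S0) : ((U a : R0ˣ) : R0) + (((U a)⁻¹ : R0ˣ) : R0) = !![a, 0; 0, a] := by
  change !![a, 1; -1, 0] + !![0, -1; 1, a] = _
  ext i j
  fin_cases i <;> fin_cases j <;> simp

lemma U_mul (a b : S0) :
    (((U b : R0ˣ) : R0) + (((U b)⁻¹ : R0ˣ) : R0)) *
      (((U a : R0ˣ) : R0) + (((U a)⁻¹ : R0ˣ) : R0)) = !![b * a, 0; 0, b * a] := by
  rw [U_add, U_add, Matrix.mul_fin_two]
  simp

end ring

/-! ### The group -/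

/-- `(t x t⁻¹)(t⁻¹ x t)` -/
def cj {H : Type} [Group H] (t x : H) : H := t * x * t⁻¹ * (t⁻¹ * x * t)

lemma map_cj {H K : Type} [Group H] [Group K] (f : H →* K) (t x : H) :
    f (cj t x) = cj (f t) (f x) := by
  simp [cj]

/-- the relator: with `y = cj u x` it says `x = cj v y` -/
def rels : Set (FreeGroup (Fin 3)) :=
  {(FreeGroup.of 0)⁻¹ * cj (FreeGroup.of 2) (cj (FreeGroup.of 1) (FreeGroup.of 0))}

abbrev G0 : Type := PresentedGroup rels

/-- the generators `x, u, v` -/
def X : Fin 3 → G0 := PresentedGroup.of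

/-- the element `y` -/
def y0 : G0 := cj (X 1) (X 0)

/-- the generators `y, u, v` -/
def Y : Fin 3 → G0 := ![y0, X 1, X 2]

lemma rel0 : X 0 = cj (X 2) y0 := by
  have h : PresentedGroup.mk rels
      ((FreeGroup.of 0)⁻¹ * cj (FreeGroup.of 2) (cj (FreeGroup.of 1) (FreeGroup.of 0))) = 1 := by
    rw [PresentedGroup.mk_eq_one_iff]
    exact Subgroup.subset_normalClosure (by simp [rels])
  rw [map_mul, map_inv, map_cj, map_cj] at h
  exact inv_mul_eq_one.1 h

lemma closure_X : Subgroup.closure (Set.range X) = ⊤ := PresentedGroup.closure_range_of rels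

lemma closure_Y : Subgroup.closure (Set.range Y) = ⊤ := by
  rw [eq_top_iff, ← closure_X, Subgroup.closure_le]
  have hY : ∀ j, Y j ∈ Subgroup.closure (Set.range Y) := fun j =>
    Subgroup.subset_closure ⟨j, rfl⟩
  have h0 : y0 ∈ Subgroup.closure (Set.range Y) := hY 0
  have h1 : X 1 ∈ Subgroup.closure (Set.range Y) := hY 1
  have h2 : X 2 ∈ Subgroup.closure (Set.range Y) := hY 2
  have hcj : ∀ t x, t ∈ Subgroup.closure (Set.range Y) → x ∈ Subgroup.closure (Set.range Y) →
      cj t x ∈ Subgroup.closure (Set.range Y) := by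
    intro t x ht hx
    exact mul_mem (mul_mem (mul_mem ht hx) (inv_mem ht)) (mul_mem (mul_mem (inv_mem ht) hx) ht)
  rintro _ ⟨i, rfl⟩
  fin_cases i
  · change X 0 ∈ _
    rw [rel0]
    exact hcj _ _ h2 h0
  · exact h1
  · exact h2

/-- images of `x, u, v` in the affine group -/
def imX : Fin 3 → Aff R0 3 :=
  ![Aff.tr ((((U be : R0ˣ) : R0) + (((U be)⁻¹ : R0ˣ) : R0)) • (Pi.single 0 1)),
    ⟨Pi.single 1 1, U al⟩, ⟨Pi.single 2 1, U be⟩]

lemma U_al_be : (((U al : R0ˣ) : R0) + (((U al)⁻¹ : R0ˣ) : R0)) *
      (((U be : R0ˣ) : R0) + (((U be)⁻¹ : R0ˣ) : R0)) = 1 := by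
  rw [U_mul, al_be, Matrix.one_fin_two]

lemma cj_imX : cj (imX 1) (imX 0) = Aff.tr (Pi.single 0 1) := by
  change cj (imX 1) (Aff.tr _) = _
  rw [cj, Aff.conj_tr, smul_smul]
  change Aff.tr (((((U al : R0ˣ) : R0) + (((U al)⁻¹ : R0ˣ) : R0)) *
      (((U be : R0ˣ) : R0) + (((U be)⁻¹ : R0ˣ) : R0))) • _) = _
  rw [U_al_be, one_smul]

lemma imX_rels : ∀ r ∈ rels, FreeGroup.lift imX r = 1 := by
  intro r hr
  rcases hr with rfl
  rw [map_mul, map_inv, map_cj, map_cj, inv_mul_eq_one]
  simp only [FreeGroup.lift_apply_of]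
  rw [cj_imX, cj, Aff.conj_tr]
  rfl

/-- the representation in the affine group -/
noncomputable def Phi : G0 →* Aff R0 3 := PresentedGroup.toGroup imX_rels

lemma Phi_X (i : Fin 3) : Phi (X i) = imX i := PresentedGroup.toGroup.of imX_rels

lemma Phi_y0 : Phi y0 = Aff.tr (Pi.single 0 1) := by
  rw [y0, map_cj, Phi_X, Phi_X, cj_imX]

lemma Phi_Y (j : Fin 3) : (Phi (Y j)).m = Pi.single j 1 := by
  fin_cases j
  · change (Phi y0).m = _
    rw [Phi_y0]; rfl
  · change (Phi (X 1)).m = _
    rw [Phi_X]; rfl
  · change (Phi (X 2)).m = _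
    rw [Phi_X]; rfl

/-- images of the generators in `(ZMod 3)^3` -/
def imF : Fin 3 → Multiplicative (Fin 3 → ZMod 3) :=
  ![Multiplicative.ofAdd (Pi.single 0 1), Multiplicative.ofAdd (Pi.single 1 1),
    Multiplicative.ofAdd (Pi.single 2 1)]

lemma imF_rels : ∀ r ∈ rels, FreeGroup.lift imF r = 1 := by
  intro r hr
  rcases hr with rfl
  rw [map_mul, map_inv, map_cj, map_cj, inv_mul_eq_one]
  simp only [FreeGroup.lift_apply_of]
  decide +kernel

/-- the characters -/
noncomputable def psi : G0 →* Multiplicative (Fin 3 → ZMod 3) := PresentedGroup.toGroup imF_rels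

lemma psi_X (i : Fin 3) : Multiplicative.toAdd (psi (X i)) = Pi.single i 1 := by
  have : psi (X i) = imF i := PresentedGroup.toGroup.of imF_rels
  rw [this]
  fin_cases i <;> rfl

/-! ### An explicit element of the kernel -/

section fox

variable {H : Type} [Group H]

/-- the Fox derivative of `cj t x` with respect to `x` -/
noncomputable def dA (t x : H) : MonoidAlgebra ℤ H :=
  single t 1 + single (t * x * t⁻¹ * t⁻¹) 1

/-- the Fox derivative of `cj t x` with respect to `t` -/
noncomputable def dB (t x : H) : MonoidAlgebra ℤ H :=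
  1 - single (t * x * t⁻¹) 1 - single (t * x * t⁻¹ * t⁻¹) 1 + single (t * x * t⁻¹ * t⁻¹ * x) 1

lemma d_cj (t x : H) : (single (cj t x) 1 - 1 : MonoidAlgebra ℤ H) =
    dA t x * (single x 1 - 1) + dB t x * (single t 1 - 1) := by
  simp only [dA, dB, add_mul, sub_mul, mul_sub, MonoidAlgebra.single_mul_single, mul_one, one_mul,
    inv_mul_cancel_right]
  rw [cj]
  simp only [← mul_assoc]
  abel

end fox

/-- the element of `ker ∂_1` given by the relator -/
noncomputable def vv : Fin 3 → MonoidAlgebra ℤ G0 :=
  ![dA (X 2) y0 * dA (X 1) (X 0) - 1, dA (X 2) y0 * dB (X 1) (X 0), dB (X 2) y0]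

lemma genMap_vv : genMap X vv = 0 := by
  have h1 := d_cj (X 1) (X 0)
  have h2 := d_cj (X 2) y0
  rw [← rel0] at h2
  change (single y0 1 - 1 : MonoidAlgebra ℤ G0) = _ at h1
  rw [h1] at h2
  change ∑ j, vv j * (single (X j) 1 - 1) = 0
  rw [Fin.sum_univ_three]
  change (dA (X 2) y0 * dA (X 1) (X 0) - 1) * (single (X 0) 1 - 1) +
    (dA (X 2) y0 * dB (X 1) (X 0)) * (single (X 1) 1 - 1) + dB (X 2) y0 * (single (X 2) 1 - 1) = 0
  rw [sub_mul, one_mul]
  rw [mul_add, ← mul_assoc, ← mul_assoc] at h2
  rw [sub_add_eq_add_sub, sub_add_eq_add_sub, sub_eq_zero]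
  exact h2.symm

lemma Th_vv : Th Phi (vv 0) ≠ 0 := by
  have h1 : Th Phi (vv 0) = !![be * al, 0; 0, be * al] - 1 := by
    rw [← U_mul]
    change Th Phi (dA (X 2) y0 * dA (X 1) (X 0) - 1) = _
    simp only [dA, map_sub, map_mul, map_add, Th_single, map_inv, Phi_X, Phi_y0, map_one,
      Aff.mul_u, Aff.inv_u, one_smul, Aff.tr_u, mul_one]
    have e0 : (imX 0).u = 1 := rfl
    have e1 : (imX 1).u = U al := rfl
    have e2 : (imX 2).u = U be := rfl
    rw [e0, e1, e2]
    simp
  rw [h1]
  intro h
  have := congrFun (congrFun h 0) 0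
  simp only [Matrix.sub_apply, Matrix.of_apply, Matrix.cons_val', Matrix.cons_val_zero,
    Matrix.one_apply_eq, Matrix.zero_apply] at this
  exact be_al (sub_eq_zero.1 this)

/-- There are an `m`, a group `G` and two minimal partial resolutions of `G` of length `m` with
different `m`-th Fox ideals. -/
theorem result : ∃ (m : ℕ) (G : Type) (_ : Group G) (C D : ChainData G),
    IsMinimal C m ∧ IsMinimal D m ∧ foxIdeal C m ≠ foxIdeal D m := by
  have : Fact (Nat.Prime 3) := ⟨by norm_num⟩
  refine ⟨1, G0, inferInstance, genData X, genData Y,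
    ⟨genData_isPartialResolution X closure_X, ?_⟩,
    ⟨genData_isPartialResolution Y closure_Y, ?_⟩, ?_⟩
  · intro D hD
    rw [genData_dirEuler]
    exact lower_bound D hD psi X psi_X
  · intro D hD
    rw [genData_dirEuler]
    exact lower_bound D hD psi X psi_X
  · intro h
    have h1 : vv 0 ∈ foxIdeal (genData X) 1 :=
      TwoSidedIdeal.subset_span ⟨vv, (genData_mem_cycles X vv).2 genMap_vv, (0 : Fin 3), rfl⟩
    rw [h] at h1
    have h2 := foxIdeal_le_ker Phi Y Phi_Y h1
    rw [TwoSidedIdeal.mem_ker] at h2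
    exact Th_vv h2

end Pool.Agent.Results.MP_506947_al.MinimalFoxDiffer
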